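import Mathlib
import Pool.Agent.H38.TO.S8.H378R2.Defs
import Pool.Agent.H38.TO.S8.H318R2.Cr.Defs

/-!
Definitions for the elementary proof of a Linnik type lower bound for primes in progressions, away from
one exceptional modulus (only the real point `1 + σ` is used).
-/

open Finset

namespace Pool.Agent.H262R3.Lk

open Pool.Agent.H318R2.Cr (Rgh V)

open Classical in
/-- number of `n ≤ N` with `n ≡ b` mod `q` without prime factor `≤ z` -/
noncomputable def rc (z q b N : ℕ) : ℕ := ((Icc 1 N).filter (fun n => Rgh z n ∧ n ≡ b [MOD q])).card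

open Classical in
noncomputable def aj (z q b j : ℕ) (σ : ℝ) (n : ℕ) : ℝ :=
  if Rgh z n ∧ n ≡ b [MOD q] ∧ 1 < n then (Real.log n) ^ j / (n : ℝ) ^ (1 + σ) else 0

noncomputable def Aj (z q b j : ℕ) (σ : ℝ) : ℝ := ∑' n : ℕ, aj z q b j σ n

open Classical in
noncomputable def bj (z q b j : ℕ) (σ : ℝ) (n : ℕ) : ℝ :=
  if Rgh z n ∧ n ≡ b [MOD q] then ArithmeticFunction.vonMangoldt n * ((Real.log n) ^ j / (n : ℝ) ^ (1 + σ)) else 0

noncomputable def Bj (z q b j : ℕ) (σ : ℝ) : ℝ := ∑' n : ℕ, bj z q b j σ n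

open Classical in
/-- a Dirichlet character restricted to the integers without prime factor `≤ z` -/
noncomputable def fz (z : ℕ) {q : ℕ} (χ : DirichletCharacter ℂ q) (n : ℕ) : ℂ :=
  if Rgh z n then χ (n : ZMod q) else 0

/-- `∑ χ(n) (log n)^j n^(-1-σ)` over rough `n` -/
noncomputable def Lj (z : ℕ) {q : ℕ} (χ : DirichletCharacter ℂ q) (j : ℕ) (σ : ℝ) : ℂ :=
  ∑' n : ℕ, fz z χ n * (((Real.log n) ^ j / (n : ℝ) ^ (1 + σ) : ℝ) : ℂ)

/-- `∑ Λ(n) χ(n) (log n)^j n^(-1-σ)` over rough `n` -/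
noncomputable def Dj (z : ℕ) {q : ℕ} (χ : DirichletCharacter ℂ q) (j : ℕ) (σ : ℝ) : ℂ :=
  ∑' n : ℕ, fz z χ n *
    ((ArithmeticFunction.vonMangoldt n * ((Real.log n) ^ j / (n : ℝ) ^ (1 + σ)) : ℝ) : ℂ)

/-- `∑ μ(n) χ(n) n^(-1-σ)` over rough `n` -/
noncomputable def Mj (z : ℕ) {q : ℕ} (χ : DirichletCharacter ℂ q) (σ : ℝ) : ℂ :=
  ∑' n : ℕ, fz z χ n * ((((ArithmeticFunction.moebius n : ℤ) : ℝ) * (1 / (n : ℝ) ^ (1 + σ)) : ℝ) : ℂ)

/-- the smooth prime sum over a residue class -/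
noncomputable def pc (Y : ℝ) (Q b : ℕ) : ℝ :=
  ∑ n ∈ (Icc 1 ⌊3 * Y⌋₊).filter (fun n => n ≡ b [MOD Q]),
    Pool.Agent.H378R2.Phi (n / Y) * ArithmeticFunction.vonMangoldt n

end Pool.Agent.H262R3.Lk
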